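import Pool.Agent.H8.BIG.Targets

/-!
# The row FCL: curves can be lifted through a map with invertible jacobian matrix
-/

set_option autoImplicit false

open MvPolynomial
open Pool.Agent.H12.ZD (pmap v O Res DenseOrbit NoInv)
open Pool.Agent.H18.HIT Pool.Agent.H8.BIG

namespace Pool.Agent.H16.BIG

section

variable {N : ℕ} {K : Type} [Field K]

theorem tay (u h : Fin N → PowerSeries K) (t : PowerSeries K) (q : Po N K) :
    ∃ r : PowerSeries K, aeval (fun i => u i + t * h i) q =
      aeval u q + t * (∑ i, aeval u (pderiv i q) * h i) + t ^ 2 * r := by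
  induction q using MvPolynomial.induction_on with
  | C a =>
    refine ⟨0, ?_⟩
    simp
  | add p q hp hq =>
    obtain ⟨r, hr⟩ := hp
    obtain ⟨r', hr'⟩ := hq
    refine ⟨r + r', ?_⟩
    rw [map_add, hr, hr', map_add]
    have h1 : ∑ i, aeval u (pderiv i (p + q)) * h i =
        ∑ i, aeval u (pderiv i p) * h i + ∑ i, aeval u (pderiv i q) * h i := by
      rw [← Finset.sum_add_distrib]
      refine Finset.sum_congr rfl fun i _ => ?_
      rw [map_add, map_add, add_mul]
    rw [h1]
    ring
  | mul_X p j hp =>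
    obtain ⟨r, hr⟩ := hp
    refine ⟨r * u j + (∑ i, aeval u (pderiv i p) * h i) * h j + t * r * h j, ?_⟩
    rw [map_mul, hr, map_mul, aeval_X, aeval_X]
    have h1 : ∑ i, aeval u (pderiv i (p * X j)) * h i =
        (∑ i, aeval u (pderiv i p) * h i) * u j + aeval u p * h j := by
      have h2 : ∀ i, aeval u (pderiv i (p * X j)) * h i =
          (aeval u (pderiv i p) * h i) * u j + aeval u p * (if i = j then h i else 0) := by
        intro i
        rw [Derivation.leibniz, pderiv_X, smul_eq_mul, smul_eq_mul, map_add, map_mul, map_mul,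
          aeval_X]
        by_cases hij : i = j
        · subst hij
          rw [Pi.single_eq_same, map_one, if_pos rfl]
          ring
        · rw [Pi.single_eq_of_ne' hij, map_zero, if_neg hij]
          ring
      rw [Finset.sum_congr rfl fun i _ => h2 i, Finset.sum_add_distrib, Finset.sum_mul,
        ← Finset.mul_sum, Finset.sum_ite_eq' Finset.univ j]
      simp
    rw [h1]
    ring

theorem cc_aeval (u : Fin N → PowerSeries K) (x₀ : Fin N → K)
    (hu : ∀ i, PowerSeries.constantCoeff (u i) = x₀ i) (q : Po N K) :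
    PowerSeries.constantCoeff (aeval u q) = eval x₀ q := by
  induction q using MvPolynomial.induction_on with
  | C a =>
    rw [aeval_C, eval_C]
    simp
  | add p q hp hq => rw [map_add, map_add, hp, hq, map_add]
  | mul_X p j hp => rw [map_mul, map_mul, aeval_X, hu, hp, map_mul, eval_X]

theorem step (T : Tup N K) (x₀ : Fin N → K) (y : Fin N → PowerSeries K)
    (hj : eval x₀ (jac T) ≠ 0) (n : ℕ) (u : Fin N → PowerSeries K)
    (hu : ∀ i, PowerSeries.constantCoeff (u i) = x₀ i)
    (h : ∀ j, (PowerSeries.X : PowerSeries K) ^ (n + 1) ∣ aeval u (T j) - y j) :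
    ∃ u' : Fin N → PowerSeries K, (∀ i, PowerSeries.constantCoeff (u' i) = x₀ i) ∧
      (∀ j, (PowerSeries.X : PowerSeries K) ^ (n + 2) ∣ aeval u' (T j) - y j) ∧
      ∀ i, (PowerSeries.X : PowerSeries K) ^ (n + 1) ∣ u' i - u i := by
  obtain ⟨A, hA⟩ : ∃ A : Matrix (Fin N) (Fin N) K,
    A = Matrix.of fun i j => eval x₀ (pderiv j (T i)) := ⟨_, rfl⟩
  have hdet : IsUnit A.det := by
    rw [isUnit_iff_ne_zero]
    intro h0
    refine hj ?_
    unfold jac
    rw [RingHom.map_det]
    rw [hA] at h0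
    rw [← h0]
    rfl
  choose r hr using h
  obtain ⟨g, hg⟩ : ∃ g : Fin N → K, A.mulVec g = fun j => - PowerSeries.constantCoeff (r j) := by
    refine ⟨A⁻¹.mulVec fun j => - PowerSeries.constantCoeff (r j), ?_⟩
    rw [Matrix.mulVec_mulVec, Matrix.mul_nonsing_inv A hdet, Matrix.one_mulVec]
  refine ⟨fun i => u i + PowerSeries.X ^ (n + 1) * PowerSeries.C (g i), ?_, ?_, ?_⟩
  · intro i
    rw [map_add, hu, map_mul, map_pow, PowerSeries.constantCoeff_X, zero_pow (Nat.succ_ne_zero n),
      zero_mul, add_zero]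
  · intro j
    obtain ⟨r', hr'⟩ := tay u (fun i => PowerSeries.C (g i)) (PowerSeries.X ^ (n + 1)) (T j)
    have h1 : aeval (fun i => u i + PowerSeries.X ^ (n + 1) * PowerSeries.C (g i)) (T j) - y j =
        PowerSeries.X ^ (n + 1) * (r j + ∑ i, aeval u (pderiv i (T j)) * PowerSeries.C (g i)) +
        PowerSeries.X ^ (n + 2) * (PowerSeries.X ^ n * r') := by
      rw [hr']
      have h2 := hr j
      have h3 : aeval u (T j) = y j + PowerSeries.X ^ (n + 1) * r j := by rw [← h2]; ring
      rw [h3]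
      ring
    rw [h1]
    refine dvd_add ?_ (Dvd.intro _ rfl)
    have h2 : (PowerSeries.X : PowerSeries K) ∣
        r j + ∑ i, aeval u (pderiv i (T j)) * PowerSeries.C (g i) := by
      rw [PowerSeries.X_dvd_iff, map_add, map_sum]
      have h3 : ∑ i, PowerSeries.constantCoeff (aeval u (pderiv i (T j)) * PowerSeries.C (g i)) =
          - PowerSeries.constantCoeff (r j) := by
        rw [← congrFun hg j]
        unfold Matrix.mulVec
        unfold dotProduct
        refine Finset.sum_congr rfl fun i _ => ?_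
        rw [map_mul, cc_aeval u x₀ hu, PowerSeries.constantCoeff_C, hA]
        rfl
      rw [h3]
      ring
    obtain ⟨c, hc⟩ := h2
    rw [hc]
    refine ⟨c, ?_⟩
    ring
  · intro i
    refine ⟨PowerSeries.C (g i), ?_⟩
    ring

theorem cong (u u' : Fin N → PowerSeries K) (n : ℕ)
    (h : ∀ i, (PowerSeries.X : PowerSeries K) ^ n ∣ u' i - u i) (q : Po N K) :
    (PowerSeries.X : PowerSeries K) ^ n ∣ aeval u' q - aeval u q := by
  choose g hg using h
  have h1 : u' = fun i => u i + PowerSeries.X ^ n * g i := by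
    funext i
    rw [← hg i]
    ring
  obtain ⟨r, hr⟩ := tay u g (PowerSeries.X ^ n) q
  rw [h1, hr]
  refine ⟨(∑ i, aeval u (pderiv i q) * g i) + PowerSeries.X ^ n * r, ?_⟩
  ring

end

theorem pf_FCL : T_FCL := by
  intro N K _ T x₀ y hj hy
  have hstart : (∀ i, PowerSeries.constantCoeff ((fun i => PowerSeries.C (x₀ i)) i :
      PowerSeries K) = x₀ i) ∧
      ∀ j, (PowerSeries.X : PowerSeries K) ^ (0 + 1) ∣
        aeval (fun i => (PowerSeries.C (x₀ i) : PowerSeries K)) (T j) - y j := by
    have h1 : ∀ i, PowerSeries.constantCoeff ((fun i => PowerSeries.C (x₀ i)) i :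
        PowerSeries K) = x₀ i := fun i => PowerSeries.constantCoeff_C _
    refine ⟨h1, fun j => ?_⟩
    rw [zero_add, pow_one, PowerSeries.X_dvd_iff, map_sub, cc_aeval _ x₀ h1, hy, sub_self]
  let S : ℕ → Type := fun n => {u : Fin N → PowerSeries K //
    (∀ i, PowerSeries.constantCoeff (u i) = x₀ i) ∧
    ∀ j, (PowerSeries.X : PowerSeries K) ^ (n + 1) ∣ aeval u (T j) - y j}
  have hst : ∀ (n : ℕ) (s : S n), ∃ s' : S (n + 1),
      ∀ i, (PowerSeries.X : PowerSeries K) ^ (n + 1) ∣ s'.1 i - s.1 i := by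
    intro n s
    obtain ⟨u', h1, h2, h3⟩ := step T x₀ y hj n s.1 s.2.1 s.2.2
    exact ⟨⟨u', h1, h2⟩, h3⟩
  choose nx hnx using hst
  obtain ⟨f, hf⟩ : ∃ f : ∀ n, S n, ∀ n, f (n + 1) = nx n (f n) :=
    ⟨fun n => Nat.rec ⟨_, hstart⟩ (fun n s => nx n s) n, fun n => rfl⟩
  have hco : ∀ (m n : ℕ), m ≤ n → ∀ i,
      PowerSeries.coeff m ((f n).1 i) = PowerSeries.coeff m ((f m).1 i) := by
    intro m n hmn i
    induction n, hmn using Nat.le_induction with
    | base => rfl
    | succ n hmn ih =>
      rw [← ih]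
      have h1 := hnx n (f n) i
      rw [← hf n, PowerSeries.X_pow_dvd_iff] at h1
      have h2 := h1 m (Nat.lt_succ_of_le hmn)
      rw [map_sub, sub_eq_zero] at h2
      exact h2
  obtain ⟨x, hx⟩ : ∃ x : Fin N → PowerSeries K,
    ∀ i n, PowerSeries.coeff n (x i) = PowerSeries.coeff n ((f n).1 i) :=
    ⟨fun i => PowerSeries.mk fun n => PowerSeries.coeff n ((f n).1 i), fun i n => by
      rw [PowerSeries.coeff_mk]⟩
  have hxf : ∀ n i, (PowerSeries.X : PowerSeries K) ^ (n + 1) ∣ x i - (f n).1 i := by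
    intro n i
    rw [PowerSeries.X_pow_dvd_iff]
    intro m hm
    rw [map_sub, hx, hco m n (Nat.le_of_lt_succ hm), sub_self]
  refine ⟨x, fun i => ?_, fun j => ?_⟩
  · have h1 := hx i 0
    rw [PowerSeries.coeff_zero_eq_constantCoeff_apply,
      PowerSeries.coeff_zero_eq_constantCoeff_apply] at h1
    rw [h1]
    exact (f 0).2.1 i
  · rw [← sub_eq_zero]
    ext n
    have h1 : (PowerSeries.X : PowerSeries K) ^ (n + 1) ∣ aeval x (T j) - y j := by
      have h2 := cong (f n).1 x (n + 1) (hxf n) (T j)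
      have h3 := dvd_add h2 ((f n).2.2 j)
      have h4 : aeval x (T j) - aeval (f n).1 (T j) + (aeval (f n).1 (T j) - y j) =
          aeval x (T j) - y j := by ring
      rw [h4] at h3
      exact h3
    rw [PowerSeries.X_pow_dvd_iff] at h1
    rw [h1 n (Nat.lt_succ_self n), map_zero]

end Pool.Agent.H16.BIG
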